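import Pool.Agent.Helper76.MedMain

/-!
MP_4596be_lc, Q1: every `Π⁰₁` Medvedev degree is the degree of the immortal set of a Turing machine.
-/

namespace Pool.Agent.Results.MP_4596be_lc.ImmortalDegrees

/-- The initial segment `x 0, …, x (k-1)` of the infinite binary sequence `x`. -/
def seg (x : ℕ → Bool) (k : ℕ) : List Bool := (List.range k).map x

/-- `P` is an effectively closed (`Π⁰₁`) subset of Cantor space: there is a computable set `T` of
finite strings such that `x ∈ P` iff all initial segments of `x` are in `T`. -/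
def IsPi01 (P : Set (ℕ → Bool)) : Prop :=
  ∃ T : List Bool → Bool, Computable T ∧ ∀ x, x ∈ P ↔ ∀ n, T (seg x n) = true

/-- The Turing functional `Φ` given by the computable `φ` satisfies `Φ y = x`: for every `n`, the
shortest initial segment `σ` of `y` for which `φ (σ, n)` is defined gives the value `x n`. -/
def Maps (φ : List Bool × ℕ → Option Bool) (y x : ℕ → Bool) : Prop :=
  ∀ n, ∃ k, φ (seg y k, n) = some (x n) ∧ ∀ j < k, φ (seg y j, n) = none

/-- Medvedev reducibility `P ≤_M R`: some Turing functional maps every point of `R` to a point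
of `P`. -/
def MedLE (P R : Set (ℕ → Bool)) : Prop :=
  ∃ φ : List Bool × ℕ → Option Bool, Computable φ ∧ ∀ y ∈ R, ∃ x ∈ P, Maps φ y x

/-- Medvedev equivalence `P ≡_M R`, i.e. `m(P) = m(R)`. -/
def MedEquiv (P R : Set (ℕ → Bool)) : Prop := MedLE P R ∧ MedLE R P

/-- One step of the Turing machine with transition function `δ` (moves in `{-1, 0, 1}`) on the
configuration (state, tape), the head being at cell `0`: write, move, recentre. -/
def step {Q S : Type} (δ : Q → S → Option (Q × S × SignType)) (c : Q × (ℤ → S)) :
    Option (Q × (ℤ → S)) :=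
  (δ c.1 (c.2 0)).map fun r => (r.1, fun i => Function.update c.2 0 r.2.1 (i + (r.2.2 : ℤ)))

/-- The immortal set: the configurations from which the machine never halts. -/
def immortal {Q S : Type} (δ : Q → S → Option (Q × S × SignType)) : Set (Q × (ℤ → S)) :=
  {c | ∀ n : ℕ, ((fun o => Option.bind o (step δ))^[n] (some c)).isSome}

/-- The code of a configuration as a point of Cantor space: bit `2k` says whether the state is `k`,
bit `2 ⟨i,j⟩ + 1` says whether the cell number `i` (in the standard enumeration
`0, -1, 1, -2, 2, …` of the integers) holds the symbol `j`. -/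
def code {nq ns : ℕ} (c : Fin nq × (ℤ → Fin ns)) : ℕ → Bool := fun n =>
  if n % 2 = 0 then decide ((c.1 : ℕ) = n / 2)
  else decide ((c.2 (Equiv.intEquivNat.symm (n / 2).unpair.1) : ℕ) = (n / 2).unpair.2)

/-- For every nonempty `Π⁰₁` set `P` there is a Turing machine `M` with `m(I(M)) = m(P)`. -/
theorem result : ∀ P : Set (ℕ → Bool), P.Nonempty → IsPi01 P →
    ∃ (nq ns : ℕ) (δ : Fin nq → Fin ns → Option (Fin nq × Fin ns × SignType)),
      MedEquiv (code '' immortal δ) P := by
  intro P _ hP
  obtain ⟨nq, ns, δ, h1, h2⟩ := Pool.Agent.Helper76.Med.main P hP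
  exact ⟨nq, ns, δ, h2, h1⟩

end Pool.Agent.Results.MP_4596be_lc.ImmortalDegrees
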